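import Pool.Agent.H632R2.Dc6

set_option autoImplicit false

open MvPolynomial

namespace Pool.Agent.Results.MP_9ce8c8_lc.BorderDetComplexity

/-- **Border determinantal complexity of the permanent.**  Let `k` be a field of characteristic
zero and `K = k(ε)` (`RatFunc k`).  If `A` is an `n × n` matrix of polynomials of degree at most
one in the `m²` variables over `K`, all coefficients of `det A` are defined at `ε = 0` and the
image of `det A` under `ε ↦ 0` is the `m × m` permanent over `k`, then
`2 m² ≤ 3 n + 10 m`, i.e. `n ≥ (2/3) m² - (10/3) m`. -/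
theorem result (k : Type*) [Field k] [CharZero k] (m n : ℕ)
    (A : Matrix (Fin n) (Fin n) (MvPolynomial (Fin m × Fin m) (RatFunc k)))
    (hA : ∀ i j, (A i j).totalDegree ≤ 1)
    (hdet : ∀ d : Fin m × Fin m →₀ ℕ,
      (A.det.coeff d).denom.eval 0 ≠ 0 ∧
      RatFunc.eval (RingHom.id k) 0 (A.det.coeff d) =
        (Matrix.permanent (Matrix.of fun i j : Fin m =>
          (MvPolynomial.X (i, j) : MvPolynomial (Fin m × Fin m) k))).coeff d) :
    2 * m ^ 2 ≤ 3 * n + 10 * m :=
  Pool.Agent.H632R2.Dc.border_dc k m n A hA hdet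

end Pool.Agent.Results.MP_9ce8c8_lc.BorderDetComplexity
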