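import Mathlib
import Pool.Agent.H567.Border.Main

set_option autoImplicit false

namespace Pool.Agent.Results.MP_9ce8c8_lc.BorderFormulaSize

open Pool.Agent.H567.Nec MvPolynomial

universe u

/-- **Border formula size of the permanent.**  Let `k` be a field of characteristic zero and
`K = k(ε)` (`RatFunc k`).  If `f` is an arithmetic formula over `K` all of whose polynomial's
coefficients are defined at `ε = 0`, with image under `ε ↦ 0` the `m × m` permanent over `k`, then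
`f` has at least `(1/8 - o(1)) m ^ 4 / log₂ m` leaves labelled by variables. -/
theorem result {k : Type u} [Field k] [CharZero k] (m : ℕ)
    (f : Formula (RatFunc k) (Fin m × Fin m))
    (hf : ∀ d : Fin m × Fin m →₀ ℕ,
      (f.poly.coeff d).denom.eval 0 ≠ 0 ∧
      RatFunc.eval (RingHom.id k) 0 (f.poly.coeff d) =
        (Matrix.permanent (Matrix.of fun i j : Fin m =>
          (MvPolynomial.X (i, j) : MvPolynomial (Fin m × Fin m) k))).coeff d) :
    m * (m - 2 * Nat.clog 2 m) * ((m - 2 * Nat.clog 2 m) ^ 2 - 1)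
      ≤ 8 * Nat.clog 2 m * f.size := by
  classical
  set ℓ := Nat.clog 2 m with hℓ
  by_cases hm : m ≤ 2 * ℓ
  · rw [Nat.sub_eq_zero_of_le hm]; simp
  push Not at hm
  have hm0 : NeZero m := ⟨by omega⟩
  obtain ⟨n', hn'⟩ : ∃ n', 2 * ℓ + n' = m := ⟨m - 2 * ℓ, by omega⟩
  have hn2 : n' ≤ 2 ^ ℓ := by
    have := Nat.le_pow_clog (b := 2) (by norm_num) m
    rw [← hℓ] at this
    omega
  have hsub : m - 2 * ℓ = n' := by omega
  rw [hsub]
  rcases Nat.eq_zero_or_pos ℓ with h0 | h0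
  · have hm1 : m ≤ 1 := by
      by_contra hcon
      have := Nat.clog_pos (b := 2) (n := m) (by norm_num) (by omega)
      omega
    have hn1 : n' = 1 := by omega
    subst hn1
    simp
  have hloc : ∀ p : Fin m × Fin (m / (2 * ℓ)),
      n' ^ 2 - 1 ≤ 4 * f.occ (blk m (2 * ℓ) p) := by
    intro p
    have := Pool.Agent.H567.Border.local_bound m ℓ n' hn' hn2 (rowB m (2 * ℓ) p.2)
      (colB m (2 * ℓ) p.1 p.2) (rowB_injective _ _ _) (colB_injective _ _ _ _) f hf
    unfold blk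
    have h3 : n' ^ 2 ≤ 4 * f.occ (Finset.univ.image
        (fun s => (rowB m (2 * ℓ) p.2 s, colB m (2 * ℓ) p.1 p.2 s))) + 1 := by
      convert this using 3
    omega
  have hsum := Formula.sum_occ_le Finset.univ (blk m (2 * ℓ)) (blk_disjoint m (2 * ℓ)) f
  have h4 : (m * (m / (2 * ℓ))) * (n' ^ 2 - 1) ≤ 4 * f.size := by
    calc (m * (m / (2 * ℓ))) * (n' ^ 2 - 1)
        = ∑ _p : Fin m × Fin (m / (2 * ℓ)), (n' ^ 2 - 1) := by
          rw [Finset.sum_const, Finset.card_univ, Fintype.card_prod, Fintype.card_fin,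
            Fintype.card_fin, smul_eq_mul]
      _ ≤ ∑ p : Fin m × Fin (m / (2 * ℓ)), 4 * f.occ (blk m (2 * ℓ) p) :=
          Finset.sum_le_sum (fun p _ => hloc p)
      _ = 4 * ∑ p : Fin m × Fin (m / (2 * ℓ)), f.occ (blk m (2 * ℓ) p) := by
          rw [Finset.mul_sum]
      _ ≤ 4 * f.size := Nat.mul_le_mul_left _ hsum
  have h5 : n' ≤ 2 * ℓ * (m / (2 * ℓ)) := by
    have := Nat.div_add_mod m (2 * ℓ)
    have := Nat.mod_lt m (show 0 < 2 * ℓ by omega)
    omega
  calc m * n' * (n' ^ 2 - 1) ≤ m * (2 * ℓ * (m / (2 * ℓ))) * (n' ^ 2 - 1) := by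
        gcongr
    _ = 2 * ℓ * ((m * (m / (2 * ℓ))) * (n' ^ 2 - 1)) := by ring
    _ ≤ 2 * ℓ * (4 * f.size) := Nat.mul_le_mul_left _ h4
    _ = 8 * ℓ * f.size := by ring

end Pool.Agent.Results.MP_9ce8c8_lc.BorderFormulaSize
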