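import Pool.Agent.H632R2.Border4

set_option autoImplicit false

open MvPolynomial Finset

namespace Pool.Agent.Results.MP_9ce8c8_lc.BorderNLogN

/-- **`Ω(n² log n)` lower bound for the approximative complexity of the permanent.**
Let `k` be a field of characteristic zero, `K = k(ε)` (`RatFunc k`) and `n` arbitrary.  Let
`g 0, …, g m` be a straight-line program over `K` in which every line outside the set `P` of
product lines is a `K`-linear combination of `1`, the variables and earlier lines (so additions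
and multiplications by arbitrary elements of `K` are free) and every product line is a product
of two earlier lines.  If all coefficients of the last line are defined at `ε = 0` and its image
under `ε ↦ 0` is the generic `n × n` permanent over `k`, then
`n² (⌊log₂ n⌋ - 11) ≤ 112 |P|`. -/
theorem result (k : Type*) [Field k] [CharZero k] (n m : ℕ)
    (g : Fin (m + 1) → MvPolynomial (Fin n × Fin n) (RatFunc k)) (P : Finset (Fin (m + 1)))
    (hlin : ∀ i, i ∉ P → g i ∈ Submodule.span (RatFunc k)
        ({1} ∪ Set.range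
            (MvPolynomial.X : Fin n × Fin n → MvPolynomial (Fin n × Fin n) (RatFunc k)) ∪
          g '' {j | j < i}))
    (hprod : ∀ i, i ∈ P → ∃ a b : Fin (m + 1), a < i ∧ b < i ∧ g i = g a * g b)
    (hlast : ∀ d : Fin n × Fin n →₀ ℕ,
        ((g (Fin.last m)).coeff d).denom.eval 0 ≠ 0 ∧
        RatFunc.eval (RingHom.id k) 0 ((g (Fin.last m)).coeff d) =
          (Matrix.permanent (Matrix.of fun i j : Fin n =>
            (MvPolynomial.X (i, j) : MvPolynomial (Fin n × Fin n) k))).coeff d) :
    n ^ 2 * (Nat.log 2 n - 11) ≤ 112 * P.card := by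
  classical
  set g' : ℕ → MvPolynomial (Fin n × Fin n) (RatFunc k) :=
    fun i => if h : i < m + 1 then g ⟨i, h⟩ else 0 with hg'
  have hg'v : ∀ (i : ℕ) (h : i < m + 1), g' i = g ⟨i, h⟩ := by
    intro i h
    rw [hg']
    simp only [h, dif_pos]
  have hP : ∀ (i : ℕ) (h : i < m + 1), i ∈ P.map Fin.valEmbedding ↔ (⟨i, h⟩ : Fin (m + 1)) ∈ P := by
    intro i h
    rw [Finset.mem_map]
    constructor
    · rintro ⟨j, hj, hji⟩
      have : j = ⟨i, h⟩ := Fin.ext hji
      rwa [← this]
    · intro hi
      exact ⟨⟨i, h⟩, hi, rfl⟩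
  have hcard : (P.map Fin.valEmbedding).card = P.card := Finset.card_map _
  rw [← hcard]
  refine Pool.Agent.H632R2.Border4.nlogn_border k n (m + 1) (P.map Fin.valEmbedding) g'
    (g (Fin.last m)) ?_ ⟨m, Nat.lt_succ_self m, (hg'v m (Nat.lt_succ_self m)).symm⟩ hlast
  intro i hi
  by_cases hiP : (⟨i, hi⟩ : Fin (m + 1)) ∈ P
  · right
    refine ⟨(hP i hi).mpr hiP, ?_⟩
    obtain ⟨a, b, ha, hb, hab⟩ := hprod _ hiP
    refine ⟨a, ha, b, hb, ?_⟩
    rw [hg'v i hi, hg'v a a.2, hg'v b b.2]
    exact hab
  · left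
    refine ⟨fun h => hiP ((hP i hi).mp h), ?_⟩
    have h1 := hlin _ hiP
    rw [hg'v i hi]
    refine Submodule.span_mono ?_ h1
    rintro p (hp | ⟨j, hj, rfl⟩)
    · exact Or.inl hp
    · right
      refine ⟨j, hj, ?_⟩
      rw [hg'v j j.2]

end Pool.Agent.Results.MP_9ce8c8_lc.BorderNLogN
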