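import Mathlib
import Pool.Agent.H735R2.OneSym.Border

/-!
# Approximate determinantal representations of the permanent with one diagonal symmetry
-/

namespace Pool.Agent.Results.MP_9ce8c8_lc.BorderOneSymmetry

open MvPolynomial Pool.Agent.H735R2.OneSym

/-- The entries of `A` have degree at most one, and `A (s x t) = P A(x) Q` for some invertible
constant matrices `P`, `Q` and some generic pair `(s, t)` of invertible diagonal matrices. -/
def Sym {K : Type} [Field K] {m N : ℕ}
    (A : Matrix (Fin N) (Fin N) (MvPolynomial (Fin m × Fin m) K)) (s t : Fin m → Kˣ) : Prop :=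
  (∀ a b, (A a b).totalDegree ≤ 1) ∧ Generic s t ∧
    ∃ P Q : Matrix (Fin N) (Fin N) K, IsUnit P ∧ IsUnit Q ∧
      A.map (scale s t) = P.map C * A * Q.map C

/-- Exponential lower bounds for matrices `A` of affine linear forms with one generic diagonal
symmetry, if (1) the coefficients of `det A` at the `m!` permutation monomials are such that no
sum of two products of three of them vanishes; in particular (2) if these coefficients become
equal to `1` under a place (for instance `ε = 0`, over rational functions in `ε`), or (3) if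
they are complex numbers at distance at most `1/4` from `1`. -/
theorem result :
    (∀ (K : Type) [Field K] (m N : ℕ), 3 ≤ m →
      ∀ (A : Matrix (Fin N) (Fin N) (MvPolynomial (Fin m × Fin m) K)) (s t : Fin m → Kˣ),
      Sym A s t →
      (∀ a b c d e f : Equiv.Perm (Fin m),
        coeff (permMon a) A.det * coeff (permMon b) A.det * coeff (permMon c) A.det +
        coeff (permMon d) A.det * coeff (permMon e) A.det * coeff (permMon f) A.det ≠ 0) →
      2 ^ m ≤ N ^ 2 ∧
        (((∏ i, s i) * ∏ j, t j ≠ 1 ∨ constantCoeff A.det = 0) → 2 ^ m - 1 ≤ N)) ∧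
    (∀ (K k : Type) [Field K] [Field k] (R : Subring K) (φ : R →+* k), (2 : k) ≠ 0 →
      ∀ m N : ℕ, 3 ≤ m →
      ∀ (A : Matrix (Fin N) (Fin N) (MvPolynomial (Fin m × Fin m) K)) (s t : Fin m → Kˣ),
      Sym A s t →
      (∀ π : Equiv.Perm (Fin m), ∃ a : R, (a : K) = coeff (permMon π) A.det ∧ φ a = 1) →
      2 ^ m ≤ N ^ 2 ∧
        (((∏ i, s i) * ∏ j, t j ≠ 1 ∨ constantCoeff A.det = 0) → 2 ^ m - 1 ≤ N)) ∧
    (∀ m N : ℕ, 3 ≤ m →
      ∀ (A : Matrix (Fin N) (Fin N) (MvPolynomial (Fin m × Fin m) ℂ)) (s t : Fin m → ℂˣ),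
      Sym A s t →
      (∀ π : Equiv.Perm (Fin m), ‖coeff (permMon π) A.det - 1‖ ≤ 1 / 4) →
      2 ^ m ≤ N ^ 2 ∧
        (((∏ i, s i) * ∏ j, t j ≠ 1 ∨ constantCoeff A.det = 0) → 2 ^ m - 1 ≤ N)) := by
  have key : ∀ (K : Type) [Field K] (m N : ℕ), 3 ≤ m →
      ∀ (A : Matrix (Fin N) (Fin N) (MvPolynomial (Fin m × Fin m) K)) (s t : Fin m → Kˣ),
      Sym A s t →
      (∀ a b c d e f : Equiv.Perm (Fin m),
        coeff (permMon a) A.det * coeff (permMon b) A.det * coeff (permMon c) A.det +
        coeff (permMon d) A.det * coeff (permMon e) A.det * coeff (permMon f) A.det ≠ 0) →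
      2 ^ m ≤ N ^ 2 ∧
        (((∏ i, s i) * ∏ j, t j ≠ 1 ∨ constantCoeff A.det = 0) → 2 ^ m - 1 ≤ N) := by
    rintro K _ m N hm A s t ⟨hdeg, hg, P, Q, hP, hQ, h⟩ h6
    have h1 := field_bound hm A hdeg h6 s t hg P Q hP hQ h
    exact ⟨h1.1, fun h0 => by have := h1.2 h0; omega⟩
  refine ⟨key, ?_, ?_⟩
  · intro K k _ _ R φ h2 m N hm A s t hA hc
    exact key K m N hm A s t hA fun a b c d e f =>
      place_six R φ h2 (hc a) (hc b) (hc c) (hc d) (hc e) (hc f)
  · intro m N hm A s t hA hc
    exact key ℂ m N hm A s t hA fun a b c d e f =>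
      six_close (hc a) (hc b) (hc c) (hc d) (hc e) (hc f)

end Pool.Agent.Results.MP_9ce8c8_lc.BorderOneSymmetry
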